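import Pool.Agent.SGP.Stmts
import Pool.Agent.Helper20_SGE.Exv
import Pool.Agent.Helper20_SGE.Chd

set_option autoImplicit false

namespace Pool.Agent.SGP.H56

open Pool.Agent.SGE Pool.Agent.SGP

variable {V : Type}

theorem con_left {A B : List V} {x y : V} (h : Con A x y) : Con (A ++ B) x y := by
  obtain ⟨P, Q, rfl⟩ := h
  exact ⟨P, Q ++ B, by simp⟩

theorem con_right {A B : List V} {x y : V} (h : Con B x y) : Con (A ++ B) x y := by
  obtain ⟨P, Q, rfl⟩ := h
  exact ⟨A ++ P, Q, by simp⟩

theorem con_split {A B : List V} {v x y : V} (h : Con (A ++ v :: B) x y) (hx : x ≠ v)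
    (hy : y ≠ v) : Con A x y ∨ Con B x y := by
  obtain ⟨P, Q, hPQ⟩ := h
  rcases List.append_eq_append_iff.1 hPQ with ⟨l, h1, h2⟩ | ⟨l, h1, h2⟩
  · cases l with
    | nil =>
      simp only [List.nil_append, List.cons.injEq] at h2
      exact absurd h2.1.symm hx
    | cons t l =>
      simp only [List.cons_append, List.cons.injEq] at h2
      exact Or.inr ⟨l, Q, h2.2⟩
  · cases l with
    | nil =>
      simp only [List.nil_append, List.cons.injEq] at h2
      exact absurd h2.1 hx
    | cons t l =>
      simp only [List.cons_append, List.cons.injEq] at h2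
      obtain ⟨rfl, h3⟩ := h2
      cases l with
      | nil =>
        simp only [List.nil_append, List.cons.injEq] at h3
        exact absurd h3.1 hy
      | cons t l =>
        simp only [List.cons_append, List.cons.injEq] at h3
        obtain ⟨rfl, h4⟩ := h3
        exact Or.inl ⟨P, l, h1⟩

theorem uniq_split {A B A' B' : List V} {v : V} (hn : (A ++ v :: B).Nodup)
    (h : A ++ v :: B = A' ++ v :: B') : A = A' ∧ B = B' := by
  have hn' : (A' ++ v :: B').Nodup := h ▸ hn
  have k1 : v ∉ A := by
    intro hv
    rw [List.nodup_append] at hn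
    exact hn.2.2 v hv v (by simp) rfl
  have k2 : v ∉ A' := by
    intro hv
    rw [List.nodup_append] at hn'
    exact hn'.2.2 v hv v (by simp) rfl
  rcases List.append_eq_append_iff.1 h with ⟨l, h1, h2⟩ | ⟨l, h1, h2⟩
  · cases l with
    | nil =>
      simp only [List.nil_append, List.cons.injEq, true_and] at h2
      exact ⟨by simpa using h1.symm, h2⟩
    | cons t l =>
      simp only [List.cons_append, List.cons.injEq] at h2
      exfalso
      apply k2
      rw [h1, ← h2.1]
      simp
  · cases l with
    | nil =>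
      simp only [List.nil_append, List.cons.injEq, true_and] at h2
      exact ⟨by simpa using h1, h2.symm⟩
    | cons t l =>
      simp only [List.cons_append, List.cons.injEq] at h2
      exfalso
      apply k1
      rw [h1, ← h2.1]
      simp

theorem con_pred {A B : List V} {p v y : V} (hn : (A ++ p :: v :: B).Nodup)
    (h : Con (A ++ p :: v :: B) y v) : y = p := by
  obtain ⟨P, Q, hPQ⟩ := h
  have h1 : (A ++ [p]) ++ v :: B = (P ++ [y]) ++ v :: Q := by simpa using hPQ
  have h2 : ((A ++ [p]) ++ v :: B).Nodup := by simpa using hn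
  have h3 := (uniq_split h2 h1).1
  have h4 := congrArg List.getLast? h3
  simp only [List.getLast?_append, List.getLast?_singleton, Option.or_some] at h4
  simpa using h4.symm

theorem con_succ {A B : List V} {v q y : V} (hn : (A ++ v :: q :: B).Nodup)
    (h : Con (A ++ v :: q :: B) v y) : y = q := by
  obtain ⟨P, Q, hPQ⟩ := h
  have h3 := (uniq_split hn hPQ).2
  simp only [List.cons.injEq] at h3
  exact h3.1.symm

theorem chain_con (A B : List V) : B.IsChain (Con (A ++ B)) := by
  induction B generalizing A with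
  | nil => exact List.IsChain.nil
  | cons x t ih =>
    cases t with
    | nil => exact List.IsChain.singleton x
    | cons y t =>
      rw [List.isChain_cons_cons]
      refine ⟨⟨A, t, rfl⟩, ?_⟩
      have h := ih (A ++ [x])
      simpa using h

theorem tri_mem {R : V → V → V → Prop} (L : List V) (x y z : V)
    (h : Tri R (x :: (L ++ [y]))) (hz : z ∈ L) : ∃ u w, R u z w := by
  induction L generalizing x with
  | nil => simp at hz
  | cons t L ih =>
    cases L with
    | nil =>
      have h1 : R x t y ∧ Tri R (t :: [y]) := h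
      simp only [List.mem_singleton] at hz
      exact ⟨x, y, hz ▸ h1.1⟩
    | cons s L =>
      have h1 : R x t s ∧ Tri R (t :: ((s :: L) ++ [y])) := h
      rw [List.mem_cons] at hz
      rcases hz with rfl | hz
      · exact ⟨x, s, h1.1⟩
      · exact ih t h1.2 hz

/-- every contour vertex has a neighbour -/
theorem contour_nb [Fintype V] {a b : V} {C : List V} {E : V → V → Prop}
    {F : V → V → V → Prop} (N : NT a b C E F) {z : V} (hz : z ∈ C) : ∃ y, E z y := by
  obtain ⟨u, w, l, h1, _, _, _, h5, _⟩ := tri_mem C b a z N.bd hz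
  exact ⟨u, (h5 u).2 (List.mem_of_head? h1)⟩

/-- a near-triangulation with contour `[a, b]` has only the vertices `a` and `b` -/
theorem two [Fintype V] {a b : V} {E : V → V → Prop} {F : V → V → V → Prop}
    (N : NT a b [a, b] E F) {x y : V} (h : E x y) : x = a ∨ x = b := by
  have hb : Fan E F b a b ∧ Fan E F a b a ∧ True := N.bd
  have key : ∀ u w : V, Fan E F u w u → ∀ z, E w z → z = u := by
    rintro u w ⟨l, h1, h2, _, h4, h5, _⟩ z hz
    have hz' := (h5 z).1 hz
    cases l with
    | nil => simp at hz'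
    | cons t l =>
      simp only [List.head?_cons, Option.some.injEq] at h1
      subst h1
      cases l with
      | nil => simpa using hz'
      | cons s l =>
        exfalso
        have h6 : t ∈ (s :: l) := by
          rw [List.getLast?_cons_cons] at h2
          exact List.mem_of_getLast? h2
        exact (List.nodup_cons.1 h4).1 h6
  have h1 := key b a hb.1
  have h2 := key a b hb.2.1
  have h3 := N.con x y h
  clear h
  induction h3 with
  | refl => exact Or.inl rfl
  | tail _ h4 ih =>
    rcases ih with rfl | rfl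
    · exact Or.inr (h1 _ h4)
    · exact Or.inl (h2 _ h4)

theorem ctr (rmv : RmvStmt) (con : ConStmt) : CtrStmt := by
  intro V _ a b c E F N hI
  have exv : ExvStmt := Pool.Agent.SGE.H20.exv Pool.Agent.SGE.H20.chd
  have hac : a ≠ c := by
    have := N.nd
    simp only [List.nodup_cons, List.mem_cons, List.mem_singleton, not_or] at this
    exact this.1.1
  have hcb : c ≠ b := by
    have := N.nd
    simp only [List.nodup_cons, List.mem_cons, List.not_mem_nil, or_false, not_or] at this
    exact this.2.1
  -- remove `c`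
  obtain ⟨mid₁, N₁', hnc', _, hc1'⟩ := rmv (P := []) (p := a) (v := c) (q := b) (Q := []) N (by
    intro x hx hEx
    simp only [List.nil_append, List.mem_cons, List.not_mem_nil, or_false] at hx
    rcases hx with rfl | rfl | rfl
    · exact Or.inl rfl
    · exact absurd hEx (N.irr _)
    · exact Or.inr rfl)
  have N₁ : NT a b (a :: (mid₁ ++ [b])) (rE E c) (rF F c) := N₁'
  clear N₁'
  have hmid : a :: (mid₁ ++ [b]) ≠ [a, b] := by
    intro h
    rw [h] at N₁
    obtain ⟨x, hxa, hxb, hxc, y, hxy⟩ := hI
    by_cases hy : y = c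
    · subst hy
      have h1 := (hnc' x).1 (N.sym _ _ hxy)
      rw [h] at h1
      simp only [List.mem_cons, List.not_mem_nil, or_false] at h1
      rcases h1 with h1 | h1
      · exact hxa h1
      · exact hxb h1
    · rcases two N₁ (⟨hxy, hxc, hy⟩ : rE E c x y) with h1 | h1
      · exact hxa h1
      · exact hxb h1
  obtain ⟨P, p, v, q, Q, hC, hch, _⟩ := exv N₁ hmid
  rw [hC] at N₁ hnc' hc1'
  obtain ⟨mid, N₂, hnv', _, hc2⟩ := rmv N₁ (by rw [← hC]; exact hch)
  set Z := P ++ p :: (mid ++ q :: Q) with hZ
  have hcC : c ∉ P ++ p :: v :: q :: Q := by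
    intro h
    obtain ⟨y, hy⟩ := contour_nb N₁ h
    exact hy.2.1 rfl
  have hvC : v ∈ P ++ p :: v :: q :: Q := by simp
  have hvc : v ≠ c := by
    rintro rfl
    exact hcC hvC
  have hcZ : c ∉ Z := by
    intro h
    obtain ⟨y, hy⟩ := contour_nb N₂ h
    exact hy.1.2.1 rfl
  have hvZ : v ∉ Z := by
    intro h
    obtain ⟨y, hy⟩ := contour_nb N₂ h
    exact hy.2.1 rfl
  have N₃ := con (c := c) N₂ (fun x hx => hx.1.2.1 rfl) hcZ
  have hnd := N₁.nd
  have hva : v ≠ a := by
    rintro rfl
    have h1 := N₁.hd
    cases P with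
    | nil =>
      simp only [List.nil_append, List.head?_cons, Option.some.injEq] at h1
      rw [h1] at hnd
      simp at hnd
    | cons t P =>
      simp only [List.cons_append, List.head?_cons, Option.some.injEq] at h1
      rw [h1] at hnd
      simp at hnd
  have hvb : v ≠ b := by
    rintro rfl
    have h1 := N₁.ls
    have h2 : (P ++ p :: v :: q :: Q).getLast? = (q :: Q).getLast? := by
      rw [List.getLast?_append_of_ne_nil _ (by simp), List.getLast?_cons_cons,
        List.getLast?_cons_cons]
    rw [h2] at h1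
    have h3 := List.mem_of_getLast? h1
    have h4 : ((P ++ [p]) ++ v :: (q :: Q)).Nodup := by simpa using hnd
    rw [List.nodup_append] at h4
    exact (List.nodup_cons.1 h4.2.1).1 h3
  have hnv : ∀ y, E v y ↔ y = c ∨ y ∈ p :: (mid ++ [q]) := by
    intro y
    rw [← hnv' y]
    constructor
    · intro h
      by_cases hy : y = c
      · exact Or.inl hy
      · exact Or.inr ⟨h, hvc, hy⟩
    · rintro (rfl | h)
      · exact N.sym _ _ ((hnc' v).2 hvC)
      · exact h.1
  have hnc : ∀ y, E c y ↔ y = v ∨ y ∈ P ++ [p] ∨ y ∈ q :: Q := by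
    intro y
    rw [hnc' y]
    simp only [List.mem_append, List.mem_cons, List.not_mem_nil, or_false]
    tauto
  have hCZ : ∀ y, y ∈ P ++ p :: v :: q :: Q → y ≠ v → y ∈ Z := by
    intro y hy hyv
    rw [hZ]
    simp only [List.mem_append, List.mem_cons] at hy ⊢
    tauto
  have hmidZ : ∀ y, y ∈ p :: (mid ++ [q]) → y ∈ Z := by
    intro y hy
    rw [hZ]
    simp only [List.mem_append, List.mem_cons, List.not_mem_nil, or_false] at hy ⊢
    tauto
  have hconZ : ∀ x y, Con (P ++ p :: v :: q :: Q) x y → x ≠ v → y ≠ v → Con Z x y := by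
    intro x y h hx hy
    have h' : Con ((P ++ [p]) ++ v :: (q :: Q)) x y := by simpa using h
    rcases con_split h' hx hy with h1 | h1
    · have := con_left (B := mid ++ q :: Q) h1
      simpa [hZ] using this
    · have := con_right (A := P ++ p :: mid) h1
      simpa [hZ] using this
  have hconM : ∀ x y, Con (p :: (mid ++ [q])) x y → Con Z x y := by
    intro x y h
    have := con_right (A := P) (con_left (B := Q) h)
    simpa [hZ] using this
  have hsub : ∀ u w, E u w → u ≠ v → w ≠ v → cE (rE (rE E c) v) c Z u w := by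
    intro u w h hu hw
    by_cases huc : u = c
    · subst huc
      exact Or.inr (Or.inl ⟨rfl, hCZ w ((hnc' w).1 h) hw⟩)
    · by_cases hwc : w = c
      · subst hwc
        exact Or.inr (Or.inr ⟨rfl, hCZ u ((hnc' u).1 (N.sym _ _ h)) hu⟩)
      · exact Or.inl ⟨⟨h, huc, hwc⟩, hu, hw⟩
  refine ⟨cE (rE (rE E c) v) c Z, cF (rF (rF F c) v) c Z, P, p, v, q, mid, Q, ?_⟩
  refine ⟨N₃, hva, hvb, hvc, ?_, hsub, hnv, hnc, ?_, N₂.hd, N₂.ls, N₂.nd, ?_, ?_, ?_, ?_⟩
  · -- iso
    rintro x (h | ⟨h, _⟩ | ⟨_, h⟩)
    · exact h.2.1 rfl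
    · exact hvc h
    · exact hvZ h
  · -- ch
    have h := chain_con [] Z
    rw [List.nil_append] at h
    exact h.imp fun x y hxy => Or.inr (Or.inl ⟨hxy, rfl⟩)
  · -- nc'
    intro y
    constructor
    · rintro (h | ⟨_, h⟩ | ⟨_, h⟩)
      · exact absurd rfl h.1.2.1
      · exact h
      · exact absurd h hcZ
    · intro h
      exact Or.inr (Or.inl ⟨rfl, h⟩)
  · -- f0
    intro x y z h hx hy hz
    by_cases hzc : z = c
    · subst hzc
      exact Or.inr (Or.inl ⟨hconZ x y (hc1' x y h) hx hy, rfl⟩)
    · by_cases hxc : x = c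
      · subst hxc
        have h1 := N.rot _ _ _ h
        exact Or.inr (Or.inr (Or.inl ⟨hconZ y z (hc1' y z h1) hy hz, rfl⟩))
      · by_cases hyc : y = c
        · subst hyc
          have h1 := N.rot _ _ _ (N.rot _ _ _ h)
          exact Or.inr (Or.inr (Or.inr ⟨hconZ z x (hc1' z x h1) hz hx, rfl⟩))
        · exact Or.inl ⟨⟨h, hxc, hyc, hzc⟩, hx, hy, hz⟩
  · -- f1
    intro x y h
    by_cases hxc : x = c
    · subst hxc
      right
      left
      refine ⟨rfl, ?_⟩
      exact con_pred hnd (hc1' y v (N.rot _ _ _ h))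
    · by_cases hyc : y = c
      · subst hyc
        right
        right
        refine ⟨?_, rfl⟩
        have h1 := hc1' v x (N.rot _ _ _ (N.rot _ _ _ h))
        have h2 : ((P ++ [p]) ++ v :: q :: Q).Nodup := by simpa using hnd
        exact con_succ h2 (by simpa using h1)
      · left
        exact ⟨hxc, hyc, Or.inr (Or.inl ⟨hconM x y (hc2 x y ⟨h, hxc, hyc, hvc⟩), rfl⟩)⟩
  · -- rel
    intro x
    constructor
    · rintro ⟨y, hy⟩
      by_cases hxv : x = v
      · exact Or.inl hxv
      · right
        by_cases hyv : y = v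
        · subst hyv
          rcases (hnv x).1 (N.sym _ _ hy) with rfl | h1
          · exact ⟨p, Or.inr (Or.inl ⟨rfl, hmidZ p (by simp)⟩)⟩
          · exact ⟨c, Or.inr (Or.inr ⟨rfl, hmidZ x h1⟩)⟩
        · exact ⟨y, hsub x y hy hxv hyv⟩
    · rintro (rfl | ⟨y, hy⟩)
      · exact ⟨c, (hnv c).2 (Or.inl rfl)⟩
      · rcases hy with h | ⟨h, _⟩ | ⟨_, h⟩
        · exact ⟨y, h.1.1⟩
        · rw [h]
          exact ⟨v, (hnc v).2 (Or.inl rfl)⟩
        · rw [hZ] at h
          by_cases hm : x ∈ p :: (mid ++ [q])
          · exact ⟨v, N.sym _ _ ((hnv x).2 (Or.inr hm))⟩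
          · refine ⟨c, N.sym _ _ ((hnc x).2 ?_)⟩
            simp only [List.mem_append, List.mem_cons, List.not_mem_nil, or_false] at h hm ⊢
            tauto

end Pool.Agent.SGP.H56
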