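import Pool.Agent.SGP.Stmts

set_option autoImplicit false

namespace Pool.Agent.SGP.H56

open Pool.Agent.SGE Pool.Agent.SGP

theorem o_rot (p q r : ℝ × ℝ) : o p q r = o q r p := by
  unfold o
  ring

theorem o_swap (p q r : ℝ × ℝ) : o p q r = -o p r q := by
  unfold o
  ring

theorem o_self2 (p q : ℝ × ℝ) : o p q q = 0 := by
  unfold o
  ring

theorem o_self13 (p q : ℝ × ℝ) : o p q p = 0 := by
  unfold o
  ring

theorem xs_swap1 {p q r s : ℝ × ℝ} (h : Xs p q r s) : Xs q p r s := by
  obtain ⟨h1, h2⟩ := h
  refine ⟨?_, ?_⟩
  · have e1 : o q p r = -o p q r := by unfold o; ring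
    have e2 : o q p s = -o p q s := by unfold o; ring
    rw [e1, e2, neg_mul_neg]
    exact h1
  · rw [mul_comm]
    exact h2

theorem xs_exch {p q r s : ℝ × ℝ} (h : Xs p q r s) : Xs r s p q := ⟨h.2, h.1⟩

theorem xs_swap2 {p q r s : ℝ × ℝ} (h : Xs p q r s) : Xs p q s r :=
  xs_exch (xs_swap1 (xs_exch h))

theorem sta (srt : SrtStmt) (nxs : NxsStmt) : StaStmt := by
  intro V _ _ a b c E E' F F' P p v q mid Q k w f π N C G
  set Z := P ++ p :: (mid ++ q :: Q) with hZ
  -- distinct corners
  have hnd := N.nd
  have hac : a ≠ c := by
    simp only [List.nodup_cons, List.mem_cons, List.not_mem_nil, or_false, not_or] at hnd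
    exact hnd.1.1
  have hab : a ≠ b := N.ab
  have hcb : c ≠ b := by
    simp only [List.nodup_cons, List.mem_cons, List.not_mem_nil, or_false, not_or] at hnd
    exact hnd.2.1
  -- elements of the contour
  have haZ : a ∈ Z := List.mem_of_head? C.hd
  have hbZ : b ∈ Z := List.mem_of_getLast? C.ls
  have hZE : ∀ y ∈ Z, E' c y := fun y hy => (C.nc' y).2 hy
  have hZR : ∀ y ∈ Z, Rel E' y := fun y hy => ⟨c, C.nt.sym _ _ (hZE y hy)⟩
  have hZc : ∀ y ∈ Z, y ≠ c := by
    rintro y hy rfl
    exact C.nt.irr _ (hZE _ hy)
  have hRv : ∀ y, Rel E' y → y ≠ v := by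
    rintro y ⟨t, ht⟩ rfl
    exact C.iso t ht
  have hRc : Rel E' c := ⟨a, hZE a haZ⟩
  have hRa : Rel E' a := hZR a haZ
  have hRb : Rel E' b := hZR b hbZ
  -- the elements of `Z` are in the angle
  have hzb : ∀ y ∈ Z, y ≠ b → 0 < o (f c) (f y) (f b) := by
    intro y hy hyb
    by_cases hya : y = a
    · subst hya
      rw [o_rot]
      exact G.tri
    · have h1 := (G.ins y ⟨hya, hyb, hZc y hy, hZR y hy⟩).2.1
      rw [o_rot] at h1
      exact h1
  have hza : ∀ y ∈ Z, 0 ≤ o (f c) (f a) (f y) := by
    intro y hy
    by_cases hya : y = a
    · subst hya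
      rw [o_self2]
    · by_cases hyb : y = b
      · subst hyb
        rw [o_rot]
        exact G.tri.le
      · exact (G.ins y ⟨hya, hyb, hZc y hy, hZR y hy⟩).2.2.le
  have hzb' : ∀ y ∈ Z, 0 ≤ o (f c) (f y) (f b) := by
    intro y hy
    by_cases hyb : y = b
    · subst hyb
      rw [o_self2]
    · exact (hzb y hy hyb).le
  -- sorted
  have hsort : Z.Pairwise (fun x y => 0 < o (f c) (f x) (f y)) := by
    have h1 : (Z.map f).IsChain (fun x y => 0 < o (f c) x y) := by
      rw [List.isChain_map]
      exact C.ch.imp fun x y hxy => by
        have h2 := G.fac x y c hxy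
        rw [o_rot, o_rot] at h2
        exact h2
    have h2 := srt (f c) (f b) (Z.map f) h1 (by
      intro y hy hyb
      obtain ⟨z, hz, rfl⟩ := List.mem_map.1 hy
      exact hzb z hz (fun h => hyb (by rw [h])))
    rwa [List.pairwise_map] at h2
  rw [hZ, List.pairwise_append, List.pairwise_cons, List.pairwise_append,
    List.pairwise_cons] at hsort
  obtain ⟨_, ⟨hp, _, ⟨hq, _⟩, hm⟩, hP⟩ := hsort
  have hpq : 0 < o (f c) (f p) (f q) := hp q (by simp)
  refine ⟨hpq, ?_⟩
  intro X hX
  have hpZ : p ∈ Z := by simp [hZ]
  have hqZ : q ∈ Z := by simp [hZ]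
  have hgv : Function.update f v X v = X := Function.update_self v X f
  have hg : ∀ x, x ≠ v → Function.update f v X x = f x := fun x hx =>
    Function.update_of_ne hx X f
  have hgR : ∀ x, Rel E' x → Function.update f v X x = f x := fun x hx => hg x (hRv x hx)
  -- orientation with `X`
  have hX0 : ∀ y z, Rel E' y → Rel E' z → y ≠ z → o X (f y) (f z) ≠ 0 := by
    intro y z hy hz hyz
    by_cases hyc : y = c
    · subst hyc
      rw [o_rot]
      exact hX.gen z hz (Ne.symm hyz)
    · by_cases hzc : z = c
      · subst hzc
        rw [o_rot, o_rot, o_swap]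
        intro h
        exact hX.gen y hy hyc (neg_eq_zero.1 h)
      · intro h
        have := hX.near y z hy hz hyc hzc hyz
        rw [h, zero_mul] at this
        exact lt_irrefl _ this
  have hrel : ∀ x, Rel E x → x ≠ v → Rel E' x := by
    intro x hx hxv
    rcases (C.rel x).1 hx with h | h
    · exact absurd h hxv
    · exact h
  refine ⟨?_, ?_, ?_, ?_, ?_⟩
  · -- gp
    intro x y z hx hy hz hxy hxz hyz
    by_cases hxv : x = v
    · subst hxv
      have hy' := hrel y hy (Ne.symm hxy)
      have hz' := hrel z hz (Ne.symm hxz)
      rw [hgv, hgR y hy', hgR z hz']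
      exact hX0 y z hy' hz' hyz
    · by_cases hyv : y = v
      · subst hyv
        have hx' := hrel x hx hxy
        have hz' := hrel z hz (Ne.symm hyz)
        rw [hgv, hgR x hx', hgR z hz', o_rot]
        exact hX0 z x hz' hx' (Ne.symm hxz)
      · by_cases hzv : z = v
        · subst hzv
          have hx' := hrel x hx hxz
          have hy' := hrel y hy hyz
          rw [hgv, hgR x hx', hgR y hy', o_rot, o_rot]
          exact hX0 x y hx' hy' hxy
        · have hx' := hrel x hx hxv
          have hy' := hrel y hy hyv
          have hz' := hrel z hz hzv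
          rw [hgR x hx', hgR y hy', hgR z hz']
          exact G.gp x y z hx' hy' hz' hxy hxz hyz
  · -- tri
    rw [hgR a hRa, hgR b hRb, hgR c hRc]
    exact G.tri
  · -- ins
    intro x hx
    by_cases hxv : x = v
    · subst hxv
      rw [hgv, hgR a hRa, hgR b hRb, hgR c hRc]
      refine ⟨?_, ?_, ?_⟩
      · have h1 := hX.near a b hRa hRb hac (Ne.symm hcb) hab
        have h2 : 0 < o (f c) (f a) (f b) := by
          rw [o_rot]
          exact G.tri
        have h3 : 0 < o X (f a) (f b) := (pos_iff_pos_of_mul_pos h1).2 h2
        rw [o_rot, o_rot]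
        exact h3
      · rw [o_rot]
        exact hX.lt b hRb (Ne.symm hcb) (hzb' p hpZ) (hzb' q hqZ)
      · exact hX.rt a hRa hac (hza p hpZ) (hza q hqZ)
    · have hx' := hrel x hx.2.2.2 hxv
      rw [hgR a hRa, hgR b hRb, hgR c hRc, hgR x hx']
      exact G.ins x ⟨hx.1, hx.2.1, hx.2.2.1, hx'⟩
  · -- fac
    have hv : ∀ x y, F x y v → 0 < o (Function.update f v X x) (Function.update f v X y) X := by
      intro x y h
      rcases C.f1 x y h with ⟨hxc, hyc, h'⟩ | ⟨hxc, hyp⟩ | ⟨hxq, hyc⟩
      · have hE := C.nt.fe _ _ _ h'
        have hx' : Rel E' x := ⟨y, hE⟩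
        have hy' : Rel E' y := ⟨x, C.nt.sym _ _ hE⟩
        have hxy : x ≠ y := by
          rintro rfl
          exact C.nt.irr _ hE
        rw [hgR x hx', hgR y hy']
        have h1 := hX.near x y hx' hy' hxc hyc hxy
        have h2 : 0 < o (f c) (f x) (f y) := by
          have := G.fac x y c h'
          rw [o_rot, o_rot] at this
          exact this
        have h3 : 0 < o X (f x) (f y) := (pos_iff_pos_of_mul_pos h1).2 h2
        rw [o_rot, o_rot]
        exact h3
      · rw [hxc, hyp, hgR c hRc, hgR p (hZR p hpZ)]
        exact hX.rt p (hZR p hpZ) (hZc p hpZ) (by rw [o_self2]) hpq.le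
      · rw [hxq, hyc, hgR c hRc, hgR q (hZR q hqZ), o_rot]
        exact hX.lt q (hZR q hqZ) (hZc q hqZ) hpq.le (by rw [o_self2])
    intro x y z h
    by_cases hzv : z = v
    · subst hzv
      rw [hgv]
      exact hv x y h
    · by_cases hxv : x = v
      · subst hxv
        have h1 := hv y z (N.rot _ _ _ h)
        rw [hgv, o_rot]
        exact h1
      · by_cases hyv : y = v
        · subst hyv
          have h1 := hv z x (N.rot _ _ _ (N.rot _ _ _ h))
          rw [hgv, o_rot, o_rot]
          exact h1
        · rw [hg x hxv, hg y hyv, hg z hzv]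
          exact G.fac x y z (C.f0 x y z h hxv hyv hzv)
  · -- cr1
    have hvc : v ≠ c := C.vc
    -- an edge at `c` different from `c v` against an edge at `v`
    have hD : ∀ y t, (y ∈ P ++ [p] ∨ y ∈ q :: Q) → t ∈ p :: (mid ++ [q]) →
        0 ≤ o (f c) (f y) X * o (f c) (f y) (f t) := by
      intro y t hy ht
      have ht' : t = p ∨ t ∈ mid ∨ t = q := by
        simp only [List.mem_cons, List.mem_append, List.not_mem_nil, or_false] at ht
        tauto
      rcases hy with hy | hy
      · have hy' : y ∈ P ∨ y = p := by
          simp only [List.mem_cons, List.mem_append, List.not_mem_nil, or_false] at hy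
          exact hy
        have hyZ : y ∈ Z := by
          rw [hZ]
          simp only [List.mem_cons, List.mem_append]
          tauto
        have h1 : 0 < o (f c) (f y) X := by
          apply hX.rt y (hZR y hyZ) (hZc y hyZ)
          · rcases hy' with h | h
            · exact (hP y h p (by simp)).le
            · rw [h, o_self2]
          · rcases hy' with h | h
            · exact (hP y h q (by simp)).le
            · rw [h]
              exact hpq.le
        have h2 : 0 ≤ o (f c) (f y) (f t) := by
          rcases hy' with h | h
          · apply le_of_lt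
            apply hP y h t
            simp only [List.mem_cons, List.mem_append]
            tauto
          · rcases ht' with h3 | h3
            · rw [h, h3, o_self2]
            · rw [h]
              apply le_of_lt
              apply hp t
              simp only [List.mem_cons, List.mem_append]
              tauto
        exact mul_nonneg h1.le h2
      · have hy' : y = q ∨ y ∈ Q := List.mem_cons.1 hy
        have hyZ : y ∈ Z := by
          rw [hZ]
          simp only [List.mem_cons, List.mem_append]
          tauto
        have h1 : 0 < o (f c) X (f y) := by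
          apply hX.lt y (hZR y hyZ) (hZc y hyZ)
          · apply le_of_lt
            apply hp y
            simp only [List.mem_cons, List.mem_append]
            tauto
          · rcases hy' with h | h
            · rw [h, o_self2]
            · exact (hq y h).le
        have h2 : 0 ≤ o (f c) (f t) (f y) := by
          rcases ht' with h3 | h3 | h3
          · rw [h3]
            apply le_of_lt
            apply hp y
            simp only [List.mem_cons, List.mem_append]
            tauto
          · exact (hm t h3 y hy).le
          · rw [h3]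
            rcases hy' with h | h
            · rw [h, o_self2]
            · exact (hq y h).le
        rw [o_swap (f c) (f y) X, o_swap (f c) (f y) (f t), neg_mul_neg]
        exact mul_nonneg h1.le h2
    have hB : ∀ y z t, E c y → E z t → ¬ Xs (Function.update f v X c) (Function.update f v X y)
        (Function.update f v X z) (Function.update f v X t) := by
      intro y z t hcy hzt hXs
      rw [hgR c hRc] at hXs
      by_cases hyv : y = v
      · subst hyv
        rw [hgv] at hXs
        have h2 := hXs.2
        by_cases hzc : z = c
        · rw [hzc, hgR c hRc, o_self13, zero_mul] at h2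
          exact lt_irrefl _ h2
        by_cases htc : t = c
        · rw [htc, hgR c hRc, o_self2, zero_mul] at h2
          exact lt_irrefl _ h2
        by_cases hzv : z = y
        · rw [hzv, hgv, o_self13 X, mul_zero] at h2
          exact lt_irrefl _ h2
        by_cases htv : t = y
        · rw [htv, hgv, o_self2 _ X, mul_zero] at h2
          exact lt_irrefl _ h2
        have hz' := hrel z ⟨t, hzt⟩ hzv
        have ht' := hrel t ⟨z, N.sym _ _ hzt⟩ htv
        have hzt' : z ≠ t := by
          rintro rfl
          exact N.irr _ hzt
        have h3 := hX.near z t hz' ht' hzc htc hzt'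
        rw [hg z hzv, hg t htv] at h2
        rw [o_rot X, o_rot (f c)] at h3
        rw [mul_comm] at h3
        exact lt_asymm h2 h3
      · have hyc : y ≠ c := by
          rintro rfl
          exact N.irr _ hcy
        rw [hg y hyv] at hXs
        have hy' : y ∈ P ++ [p] ∨ y ∈ q :: Q := by
          rcases (C.nc y).1 hcy with h | h
          · exact absurd h hyv
          · exact h
        by_cases hzc : z = c
        · have h1 := hXs.1
          rw [hzc, hgR c hRc, o_self13, zero_mul] at h1
          exact lt_irrefl _ h1
        by_cases htc : t = c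
        · have h1 := hXs.1
          rw [htc, hgR c hRc, o_self13 (f c), mul_zero] at h1
          exact lt_irrefl _ h1
        by_cases hzv : z = v
        · subst hzv
          have htv : t ≠ z := by
            rintro rfl
            exact N.irr _ hzt
          have h1 := hXs.1
          rw [hgv, hg t htv] at h1
          have ht' : t ∈ p :: (mid ++ [q]) := by
            rcases (C.nv t).1 hzt with h | h
            · exact absurd h htc
            · exact h
          exact absurd (hD y t hy' ht') (not_le.2 h1)
        · by_cases htv : t = v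
          · subst htv
            have h1 := hXs.1
            rw [hgv, hg z hzv] at h1
            have hz' : z ∈ p :: (mid ++ [q]) := by
              rcases (C.nv z).1 (N.sym _ _ hzt) with h | h
              · exact absurd h hzc
              · exact h
            rw [mul_comm] at h1
            exact absurd (hD y z hy' hz') (not_le.2 h1)
          · rw [hg z hzv, hg t htv] at hXs
            exact G.cr1 c y z t (C.sub c y hcy (Ne.symm hvc) hyv) (C.sub z t hzt hzv htv) hXs
    intro x y z t hxy hzt hXs
    by_cases hxc : x = c
    · subst hxc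
      exact hB y z t hxy hzt hXs
    by_cases hyc : y = c
    · subst hyc
      exact hB x z t (N.sym _ _ hxy) hzt (xs_swap1 hXs)
    by_cases hzc : z = c
    · subst hzc
      exact hB t x y hzt hxy (xs_exch hXs)
    by_cases htc : t = c
    · subst htc
      exact hB z x y (N.sym _ _ hzt) hxy (xs_swap1 (xs_exch hXs))
    have hη : ∀ x y, E x y → x ≠ c → y ≠ c →
        E' (if x = v then c else x) (if y = v then c else y) := by
      intro x y h hx hy
      by_cases hxv : x = v
      · have hyv : y ≠ v := by
          rintro rfl
          rw [hxv] at h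
          exact N.irr _ h
        rw [if_pos hxv, if_neg hyv]
        apply hZE
        rw [hxv] at h
        rcases (C.nv y).1 h with h1 | h1
        · exact absurd h1 hy
        · rw [hZ]
          simp only [List.mem_cons, List.mem_append, List.not_mem_nil, or_false] at h1 ⊢
          tauto
      · by_cases hyv : y = v
        · rw [if_neg hxv, if_pos hyv]
          apply C.nt.sym
          apply hZE
          rw [hyv] at h
          rcases (C.nv x).1 (N.sym _ _ h) with h1 | h1
          · exact absurd h1 hx
          · rw [hZ]
            simp only [List.mem_cons, List.mem_append, List.not_mem_nil, or_false] at h1 ⊢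
            tauto
        · rw [if_neg hxv, if_neg hyv]
          exact C.sub x y h hxv hyv
    have hR : ∀ x, Rel E x → x = v ∨ Rel E' x := fun x hx => (C.rel x).1 hx
    exact G.cr1 _ _ _ _ (hη x y hxy hxc hyc) (hη z t hzt hzc htc)
      (nxs hX hvc x y z t hxc hyc hzc htc (hR x ⟨y, hxy⟩) (hR y ⟨x, N.sym _ _ hxy⟩)
        (hR z ⟨t, hzt⟩) (hR t ⟨z, N.sym _ _ hzt⟩) hXs)

end Pool.Agent.SGP.H56
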